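import Pool.Agent.Helper27.NB.Word

/-!
# The table of the words of the blocks
-/

set_option autoImplicit false

namespace Pool.Agent.Helper27.NB.Cand

open Pool.Agent.Helper27.NB

/-- The table of the words of the blocks of the input `J`. -/
def table {F K : Type} [Field F] [Field K] [Fintype K] [Algebra F K] {m e : ℕ} (J : (Fin e → K) × (K × K) → F)
    (b : Fin e → K) (c : Bool × ZMod m) : Fin e → K :=
  word e num (fun l => J (b, l)) c

end Pool.Agent.Helper27.NB.Cand
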