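import Pool.Agent.Helper19.NF.Defs

/-!
# Programs which inspect symbols: definitions for the proof

The cell `b` of the network of `Helper19.NF` is replaced by a block of symbols `y : Λ → F`; its word is `dec y`.
-/

set_option autoImplicit false

namespace Pool.Agent.Helper27.NB

open Pool.Agent.Helper6.IP (cnt)
open Pool.Agent.Helper19.NF

/-- A block of symbols `y : Λ → F` has the word `dec y`. If the symbols outside a set of `h` places are known, then
every word is still possible, equally often: the block is determined by them, its word and its residue. -/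
structure Hide (Λ F W : Type) (ρ h : ℕ) where
  dec : (Λ → F) → W
  res : Finset Λ → (Λ → F) → Fin ρ
  inj : ∀ X : Finset Λ, X.card = h → ∀ y y' : Λ → F, (∀ l, l ∉ X → y l = y' l) → dec y = dec y' →
    res X y = res X y' → y = y'
  card : ρ * Nat.card W = Nat.card F ^ h

variable {Λ F W Z B : Type} {ρ h a : ℕ}

/-- The words of the blocks of an input. -/
def wd (H : Hide Λ F W ρ h) (J : B × Λ → F) (b : B) : W := H.dec fun l => J (b, l)

/-- The number of the symbols of the block `b` observed before the time `t`. -/
noncomputable def rd (o : ℕ → (B × Λ) ⊕ Z) (b : B) (t : ℕ) : ℕ := {l : Λ | ∃ j < t, o j = Sum.inl (b, l)}.ncard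

/-- At the time `t` a new symbol of the block `b` is observed. -/
def New (o : ℕ → (B × Λ) ⊕ Z) (b : B) (t : ℕ) : Prop :=
  ∃ l, o t = Sum.inl (b, l) ∧ ∀ j < t, o j ≠ Sum.inl (b, l)

/-- At the time `t` a new symbol of the block `b` is observed, and at most `a` other symbols of it have been observed
before. -/
def Early (a : ℕ) (o : ℕ → (B × Λ) ⊕ Z) (b : B) (t : ℕ) : Prop := New o b t ∧ rd o b t ≤ a

/-- At the time `t` the block `b` gets ripe: a new symbol is observed, exactly `a` other symbols of it have been
observed before. -/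
def Rip (a : ℕ) (o : ℕ → (B × Λ) ⊕ Z) (b : B) (t : ℕ) : Prop := New o b t ∧ rd o b t = a

/-- The number of the blocks which are ripe before the time `t`. -/
noncomputable def crip (a : ℕ) (o : ℕ → (B × Λ) ⊕ Z) (t : ℕ) : ℕ := {b : B | a + 1 ≤ rd o b t}.ncard

/-- An announcement of the block `b`, at a time when the block `b'` is not ripe. First kind (`true`): a symbol among
the first `a + 1` of the block `b` is observed when exactly `ν` different symbols (of all blocks) have been observed
before. Second kind: the block `b` gets ripe when exactly `ν` blocks are ripe. -/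
def Hit (a : ℕ) (o : ℕ → (B × Λ) ⊕ Z) (kind : Bool) (b b' : B) (ν : ℕ) : Prop :=
  ∃ t, rd o b' t ≤ a ∧ if kind then Early a o b t ∧ cnt o t = ν else Rip a o b t ∧ crip a o t = ν

variable {n m : ℕ} [NeZero m] [AddCommGroup B]

/-- A path down from the result in the directions `c 0, c 1, …` to the level `l` with times `s 1 > s 2 > …`, at which
early symbols of its cells are observed. -/
def Chain (a : ℕ) (x0 : Pos n m → B) (I : B → Dir m → B) (o : ℕ → (B × Λ) ⊕ Z) (c : ℕ → Dir m) (s : ℕ → ℕ) (l : ℕ) :
    Prop :=
  (∀ j, 1 ≤ j → j ≤ l → Early a o (val (ring n m) x0 I (n - j) (pos n c j)) (s j)) ∧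
    ∀ j, 1 ≤ j → j < l → s (j + 1) < s j

/-- The position `w` of the level `l` is reached by such a path with the last time `t`. -/
def InR (a : ℕ) (x0 : Pos n m → B) (I : B → Dir m → B) (o : ℕ → (B × Λ) ⊕ Z) (l : ℕ) (w : Pos n m) (t : ℕ) : Prop :=
  ∃ c s, Chain a x0 I o c s l ∧ pos n c l = w ∧ s l = t

/-- The announced numbers fit: they are less than `T` (type 2) or `T'` (type 3), and decrease along the labels of
type 2. -/
def Fits (L : Fin (n - 1) → Label n m) (T T' : ℕ) (num : Idx L → ℕ) : Prop :=
  (∀ x, num x < if (L x.1).2.isLeft then T else T') ∧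
    ∀ x y : Idx L, (L x.1).2.isLeft → (L y.1).2.isLeft → x.1 < y.1 → num y < num x

/-- The instance `I` is of the type `L` with the numbers `num` for the observations `o`. -/
def Typ (a : ℕ) (x0 : Pos n m → B) (I : B → Dir m → B) (o : ℕ → (B × Λ) ⊕ Z) (L : Fin (n - 1) → Label n m)
    (num : Idx L → ℕ) : Prop :=
  ∀ x : Idx L, Hit a o (L x.1).2.isLeft (val (ring n m) x0 I (n - lev L x.1) (pst L x.1 x.2.1))
    (val (ring n m) x0 I (n - lev L x.1 - 1) (ring n m (slt L x.1 x.2.1) (pst L x.1 x.2.1))) (num x)

/-- The weight of a label: `K / x` for type 2, `K' ^ m` for type 3. -/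
noncomputable def wt (K K' x : ℝ) (ℓ : Label n m) : ℝ := if ℓ.2.isLeft then K / x else K' ^ m

end Pool.Agent.Helper27.NB
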