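import Mathlib

/-!
# The words of blocks of symbols
-/

set_option autoImplicit false

namespace Pool.Agent.Helper27.NB

/-- The word of a block of symbols `y (u, z)`: the entry number `i` of its component `c` is the sum of all
`y (u, z) z u ^ (e (num c) + i)`. -/
def word {F K D : Type} [Field F] [Field K] [Fintype K] [Algebra F K] (e : ℕ) (num : D → ℕ) (y : K × K → F) (c : D)
    (i : Fin e) : K := ∑ p : K × K, y p • (p.2 * p.1 ^ (e * num c + i.val))

/-- The number of the component `(s, r)` is `2 r + s`. -/
def num {m : ℕ} (c : Bool × ZMod m) : ℕ := 2 * c.2.val + c.1.toNat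

theorem num_injective {m : ℕ} [NeZero m] : Function.Injective (num (m := m)) := by
  rintro ⟨s, r⟩ ⟨s', r'⟩ h
  have h1 : r.val = r'.val ∧ s = s' := by
    unfold num at h
    cases s <;> cases s' <;> simp at h ⊢ <;> omega
  exact Prod.ext h1.2 (ZMod.val_injective m h1.1)

theorem num_lt {m : ℕ} [NeZero m] (c : Bool × ZMod m) : num c < Fintype.card (Bool × ZMod m) := by
  obtain ⟨s, r⟩ := c
  have h := ZMod.val_lt r
  rw [Fintype.card_prod, Fintype.card_bool, ZMod.card]
  unfold num
  cases s <;> simp <;> omega

end Pool.Agent.Helper27.NB
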