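import Pool.Agent.Helper27.NB.Frame2
import Pool.Agent.Helper98.NB.Param
import Pool.Agent.Helper98.NB.PushWord
import Pool.Agent.Helper58.NB.Head
import Pool.Agent.Helper84.NB.Bound
import Pool.Agent.Helper60.NB.Frm

/-!
# The final steps
-/

set_option autoImplicit false

namespace Pool.Agent.Helper27.NB.Final

open Pool.Agent.Helper19.NF Pool.Agent.Helper27.NB Pool.Agent.Helper27.NB.Cand
open Pool.Agent.Helper27.NB.Frame (det_program all_symbols)
open Pool.Agent.Helper60.NB (pushdown_program5)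
open Pool.Agent.Helper98.NB (parameters push_head_word)
open Pool.Agent.Helper58.NB (head)

/-- The table of words is a sum over the symbols. -/
theorem table_eq {F K : Type} [Field F] [Field K] [Fintype K] [Algebra F K] {m e : ℕ}
    (J : (Fin e → K) × (K × K) → F) :
    table (m := m) J = fun b c => ∑ l : K × K, (fun (c : Bool × ZMod m) (l : K × K) (y : F) (i : Fin e) =>
      y • (l.2 * l.1 ^ (e * num c + i.val))) c l (J (b, l)) := by
  funext b c i
  rw [Finset.sum_apply]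
  rfl

/-- (G). -/
theorem general {F K : Type} [Field F] [Fintype F] [Field K] [Fintype K] [Algebra F K]
      {n m e σ S p T : ℕ} [NeZero m] {Y : Type} (x : ℝ) (x0 : ZMod (n + 1) × ZMod m → Fin e → K)
      (φ : (Fin e → K) → Y) (P : Prog ((Fin e → K) × (K × K)) F (Y × Fin σ) σ S)
      (hn : 1 ≤ n) (he : 1 ≤ e) (hQ : 2 * m * e ≤ Fintype.card K) (hx : 0 < x) (h0 : Function.Injective x0)
      (hφ : ∀ y, Nat.card {b // φ b = y} ≤ p) :
      (Nat.card {s : Fin σ × ((Fin e → K) × (K × K) → F) //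
          P.Outputs s.2 (P.start s.1) (φ (out x0 (table s.2)), s.1) ∧
          Nat.card {b // P.Asks s.2 (P.start s.1) b} ≤ T} : ℝ) ≤
        (σ * (((n * (n + 1) * m) ^ 2 + p) / (Fintype.card K : ℝ) ^ e + n * m *
            (((T / ((Fintype.card K - (2 * m * e - 1)) * (Fintype.card K - Fintype.card K / Fintype.card F)) : ℕ) : ℝ) /
              (Fintype.card K : ℝ) ^ e) ^ m) +
          S * (Real.exp x * (4 * m ^ 2 * ((T : ℝ) / (Fintype.card K : ℝ) ^ e) / x + 2 * m ^ 2 * n *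
            (((T / ((Fintype.card K - (2 * m * e - 1)) * (Fintype.card K - Fintype.card K / Fintype.card F)) : ℕ) : ℝ) /
              (Fintype.card K : ℝ) ^ e) ^ m) ^ (n - 1))) * Nat.card ((Fin e → K) × (K × K) → F) := by
  have h1 : e * (2 * m) = 2 * m * e := by ring
  have h2 := Pool.Agent.Helper84.NB.word_bound hn e he (by rw [h1]; exact hQ) x0 h0 P φ p T hφ x hx
  rw [h1] at h2
  push_cast at h2 ⊢
  exact h2

/-- (H). -/
theorem numbers : ∃ C : ℕ, ∀ (F : Type) (_ : Field F) (_ : Fintype F) (δ : ℝ), 0 < δ → ∃ n0 : ℕ, ∀ n ≥ n0,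
      ∃ (m s e : ℕ) (_ : NeZero m),
      1 ≤ s ∧ 1 ≤ e ∧ ∀ (K : Type) (_ : Field K) (_ : Fintype K) (_ : Algebra F K) (k N : ℕ)
        (x0 : ZMod (n + 1) × ZMod m → Fin e → K),
      Fintype.card K = Fintype.card F ^ s → k = Fintype.card K ^ e → N = k * Fintype.card K ^ 2 →
      Function.Injective x0 → n * (n + 1) * m ≤ k ∧ n ^ 5 ≤ N ∧ N ≤ n ^ 7 ∧
      -- (L) programs
      (∀ (σ S p T : ℕ) (Y : Type) (φ : (Fin e → K) → Y) (P : Prog ((Fin e → K) × (K × K)) F (Y × Fin σ) σ S),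
        (∀ y, Nat.card {b // φ b = y} ≤ p) → (T : ℝ) ≤ (1 - 1 / Fintype.card F - δ) * N →
        (S : ℝ) ≤ σ * (n : ℝ) ^ ((n : ℝ) / 3) →
        (Nat.card {s : Fin σ × ((Fin e → K) × (K × K) → F) //
            P.Outputs s.2 (P.start s.1) (φ (out x0 (table s.2)), s.1) ∧
            Nat.card {b // P.Asks s.2 (P.start s.1) b} ≤ T} : ℝ) ≤
          (p / k + 1 / 50) * Nat.card (Fin σ × ((Fin e → K) × (K × K) → F))) ∧
      -- (T) pushdown programs
      (∀ (w p T : ℕ) (Y Q Γ : Type) (_ : Finite Q) (_ : Finite Γ) (φ : (Fin e → K) → Y)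
          (P : PProg ((Fin e → K) × (K × K)) F Y Q Γ),
        (∀ y, Nat.card {b // φ b = y} ≤ p) → (T : ℝ) ≤ (1 - 1 / Fintype.card F - δ) * N →
        (16 * w ^ 2 : ℝ) ≤ n * Real.log n → Nat.card Q ≤ 2 ^ w → Nat.card Γ ≤ 2 ^ w →
        (Nat.card {J : (Fin e → K) × (K × K) → F // (∃ j ≤ 2 ^ w, P.act (P.conf J j).1 = .out (φ (out x0 (table J)))) ∧
            Nat.card {b // P.Asks J b} ≤ T} : ℝ) ≤
          (p / k + 1 / 50) * Nat.card ((Fin e → K) × (K × K) → F)) ∧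
      -- (P) a pushdown program which is always right
      (∃ (Q Γ : Type) (_ : Finite Q) (_ : Finite Γ) (P : PProg ((Fin e → K) × (K × K)) F (Fin e → K) Q Γ),
        Nat.card Q ≤ (2 * k) ^ 5 ∧ Nat.card Γ ≤ (2 * k) ^ 2 ∧
        ∀ J, P.Outputs J (out x0 (table J)) ∧ Nat.card {b // P.Asks J b} ^ 2 ≤ N) ∧
      -- (U) a program which is always right
      (∃ (S : ℕ) (P : Prog ((Fin e → K) × (K × K)) F (Fin e → K) 1 S), S ≤ (2 * k) ^ (5 * n) ∧
        ∀ J, P.Outputs J (P.start 0) (out x0 (table J)) ∧ Nat.card {b // P.Asks J (P.start 0) b} ^ 2 ≤ N) ∧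
      -- (C) a program which reads all symbols
      (∃ (S : ℕ) (P : Prog ((Fin e → K) × (K × K)) F (Fin e → K) 1 S), (S : ℝ) ≤ Real.log n ^ (C * n) ∧
        ∀ J, P.Outputs J (P.start 0) (out x0 (table J))) := by
  classical
  obtain ⟨C, hC⟩ := all_symbols
  refine ⟨C, fun F _ _ δ hδ => ?_⟩
  obtain ⟨n0, hn0⟩ := parameters (Fintype.card F) Fintype.one_lt_card δ hδ
  refine ⟨max n0 1000, fun n hn => ?_⟩
  obtain ⟨m, s, e, hm, hs, he, hlog, hr, hm2, hk5, hk6, hkm, hsq, hN7, hΛ, hr', hmlog, hQn⟩ := hn0 n (le_of_max_le_left hn)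
  have hn3 : 1000 ≤ n := le_of_max_le_right hn
  refine ⟨m, s, e, ⟨by omega⟩, hs, he, ?_⟩
  intro K _ _ _ k N x0 hK hk hN h0
  have : NeZero m := ⟨by omega⟩
  rw [← hK] at hr hm2 hk5 hk6 hkm hsq hN7 hΛ hr' hQn
  have hkR : (k : ℝ) = (Fintype.card K : ℝ) ^ e := by rw [hk]; push_cast; rfl
  have hNR : (N : ℝ) = (Fintype.card K : ℝ) ^ e * (Fintype.card K : ℝ) ^ 2 := by rw [hN, hk]; push_cast; rfl
  have hQ0 : 0 < Fintype.card K := Fintype.card_pos
  have hcardB : Fintype.card (Fin e → K) = k := by rw [Fintype.card_fun, Fintype.card_fin, hk]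
  have hcardΛ : Fintype.card (K × K) = Fintype.card K ^ 2 := by rw [Fintype.card_prod, sq]
  have hr2 : (2 * (2 * m * e : ℕ) : ℝ) ≤ δ * Fintype.card K := by
    have h1 : e * (2 * m) = 2 * m * e := by ring
    rw [h1] at hr
    exact hr
  have h5N : n ^ 5 ≤ N := by
    rw [hN, hk]
    exact hk5.trans (Nat.le_mul_of_pos_right _ (by positivity))
  have h7N : N ≤ n ^ 7 := by rw [hN, hk]; exact hN7
  have hkm' : n * (n + 1) * m ≤ Fintype.card (Fin e → K) := by rw [hcardB, hk]; exact hkm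
  have hB2 : 2 ≤ Fintype.card (Fin e → K) := by
    rw [hcardB, hk]
    refine le_trans ?_ hk5
    calc 2 ≤ n := by omega
      _ = n ^ 1 := (pow_one n).symm
      _ ≤ n ^ 5 := Nat.pow_le_pow_right (by omega) (by norm_num)
  have hΛ' : Fintype.card (K × K) ≤ Fintype.card (Fin e → K) := by rw [hcardB, hcardΛ, hk]; exact hΛ
  have hsq' : ∀ x : ℕ, x ≤ n * (n + 1) * m * Fintype.card (K × K) → x ^ 2 ≤ N := by
    intro x hx
    refine (Nat.pow_le_pow_left hx 2).trans ?_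
    rw [hcardΛ, hN, hk]
    exact hsq
  refine ⟨by rw [hk]; exact hkm, h5N, h7N, ?_, ?_, ?_, ?_, ?_⟩
  · intro σ S p T Y φ P hφ hT hS
    rw [hkR]
    exact head he δ hδ hlog hr hm2 hk5 x0 h0 P φ p T hφ (by rw [← hNR]; exact hT) hS
  · intro w p T Y Q Γ _ _ φ P hφ hT hw hcQ hcΓ
    rw [hkR]
    exact push_head_word he δ hδ hlog hr2 hr' hm2 hk5 x0 h0 φ p T w hφ (by rw [← hNR]; exact hT) hw hcQ hcΓ P
  · have hkmm : n * (n + 1) * m * (2 * m) ≤ Fintype.card (Fin e → K) := by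
      rw [hcardB, hk]
      refine le_trans ?_ hk5
      have hm3 : m ^ 2 ≤ n := by
        have hn1 : (1 : ℝ) ≤ n := by
          have : 1 ≤ n := by omega
          exact_mod_cast this
        have hQ1 : (1 : ℝ) ≤ (Fintype.card K : ℝ) ^ 2 := one_le_pow₀ (by exact_mod_cast hQ0)
        have h1 : Real.sqrt n ≤ n := Real.sqrt_le_iff.2 ⟨by linarith, by nlinarith⟩
        have h2 : (m : ℝ) ^ 2 ≤ 6 * (m * (Fintype.card K : ℝ)) ^ 2 := by
          rw [mul_pow]
          nlinarith [mul_le_mul_of_nonneg_left hQ1 (sq_nonneg (m : ℝ))]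
        exact_mod_cast h2.trans (hm2.trans h1)
      calc n * (n + 1) * m * (2 * m) = 2 * n * (n + 1) * m ^ 2 := by ring
        _ ≤ 2 * n * (n + n) * n := by gcongr; omega
        _ = 4 * n ^ 3 := by ring
        _ ≤ n ^ 2 * n ^ 3 := Nat.mul_le_mul_right _ (by nlinarith)
        _ = n ^ 5 := by ring
    obtain ⟨Q, Γ, h1, h2, P, h3, h4, h5⟩ := pushdown_program5 (n := n) (m := m) (B := Fin e → K) (Λ := K × K) (F := F)
      x0 (fun (c : Bool × ZMod m) (l : K × K) (y : F) (i : Fin e) => y • (l.2 * l.1 ^ (e * num c + i.val))) hkmm hB2 hΛ'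
    rw [hcardB] at h3 h4
    refine ⟨Q, Γ, h1, h2, P, h3, h4, fun J => ⟨?_, hsq' _ (h5 J).2⟩⟩
    rw [table_eq]
    exact (h5 J).1
  · obtain ⟨S, P, h3, h5⟩ := det_program (n := n) (m := m) (B := Fin e → K) (Λ := K × K) (F := F)
      (by omega) x0
      (fun (c : Bool × ZMod m) (l : K × K) (y : F) (i : Fin e) => y • (l.2 * l.1 ^ (e * num c + i.val))) hkm' hB2 hΛ'
    rw [hcardB] at h3
    refine ⟨S, P, h3, fun J => ⟨?_, hsq' _ (h5 J).2⟩⟩
    rw [table_eq]
    exact (h5 J).1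
  · exact hC F K _ _ _ _ n m e ⟨by omega⟩ x0 hn3 hk5 hk6 hQn hmlog

end Pool.Agent.Helper27.NB.Final
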