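import Pool.Agent.Helper27.NB.Defs
import Pool.Agent.Helper27.NB.Word

/-!
# Frame (only for the work, not for the graded result)
-/

set_option autoImplicit false

namespace Pool.Agent.Helper27.NB.Frame

open Pool.Agent.Helper6.IP (cnt)
open Pool.Agent.Helper19.NF (Prog obs val ring out CF Pos Dir pos Label Idx Valid lev pst slt PProg)
open Pool.Agent.Helper27.NB

section general

variable {U D B Λ F Z : Type} [Fintype U] [Fintype D] [DecidableEq D] [AddCommGroup B] [Fintype B] [Fintype Λ]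
  [Fintype F] {σ S ρ h a : ℕ}

/-- B1: few inputs have two equal elements in the rows below `n` (from `Helper60.NFF.card_not_CF`: every table of words
comes from equally many inputs). -/
theorem card_not_CF [Nonempty D] (H : Hide Λ F (D → B) ρ h) (hh : h ≤ Fintype.card Λ) (g : D → Equiv.Perm U)
    (x0 : U → B) (h0 : Function.Injective x0) (n : ℕ) :
    Nat.card {J : B × Λ → F // ¬ CF g x0 n (wd H J)} * Fintype.card B ≤
      (n * Fintype.card U) ^ 2 * Nat.card (B × Λ → F) := sorry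

/-- B2: the secrets lemma. -/
theorem secrets {ι : Type} [Fintype ι] (H : Hide Λ F (D → B) ρ h) (hah : a + h = Fintype.card Λ)
    (g : D → Equiv.Perm U) (x0 : U → B) (n : ℕ) (P : Prog (B × Λ) F Z σ S) (q : Fin S) (nd : ι → ℕ × U)
    (hinj : Function.Injective nd) (hrow : ∀ i, 1 ≤ (nd i).1 ∧ (nd i).1 < n) (sl : ι → D) (kind : ι → Bool)
    (num : ι → ℕ) :
    Nat.card {J : B × Λ → F // CF g x0 n (wd H J) ∧ ∀ i, Hit a (obs P J q) (kind i)
      (val g x0 (wd H J) (nd i).1 (nd i).2) (val g x0 (wd H J) ((nd i).1 - 1) (g (sl i) (nd i).2)) (num i)} *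
      Fintype.card B ^ Fintype.card ι ≤ Nat.card (B × Λ → F) := sorry

/-- B3: a block used by the result never gets ripe. -/
theorem root_bound [Nonempty D] (H : Hide Λ F (D → B) ρ h) (hah : a + h = Fintype.card Λ) (g : D → Equiv.Perm U)
    (x0 : U → B) (n : ℕ) (hn : 1 ≤ n) (P : Prog (B × Λ) F Z σ S) (q : Fin S) (w : U) (φ : B → Z) (p : ℕ)
    (hφ : ∀ z, Nat.card {b // φ b = z} ≤ p) :
    Nat.card {J : B × Λ → F // CF g x0 n (wd H J) ∧ P.Outputs J q (φ (val g x0 (wd H J) n w)) ∧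
      ∃ c, ∀ t, ¬ Rip a (obs P J q) (val g x0 (wd H J) (n - 1) (g c w)) t} * Fintype.card B ≤
      p * Nat.card (B × Λ → F) := sorry

end general

section ring

variable {n m : ℕ} [NeZero m] {B Λ F Z : Type} [AddCommGroup B] [Fintype Λ] {σ S ρ h a : ℕ}

/-- B4: the last time with an open path. -/
theorem exists_close (hn : 1 ≤ n) (x0 : Pos n m → B) (I : B → Dir m → B) (o : ℕ → (B × Λ) ⊕ Z) (L : ℕ)
    (hL : ∀ j, L ≤ j → ∃ y, o j = Sum.inr y) (h0 : ∃ w t, InR a x0 I o n w t) :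
    ∃ τ, (∀ w t, ¬ InR a x0 I (fun j => o (j + τ)) n w t) ∧
      ∃ c s, Chain a x0 I (fun j => o (j + τ)) c s (n - 1) := sorry

/-- B5: if for no level `l` all letters of the node `(l, 0)` get ripe when a letter of its neighbour below is not ripe,
and the letters of the node `0` of the level `1` get ripe, then a path is open. -/
theorem open_start (hn : 1 ≤ n) (x0 : Pos n m → B) (I : B → Dir m → B) (hI : CF (ring n m) x0 n I)
    (o : ℕ → (B × Λ) ⊕ Z) (h1 : ∀ t : ZMod m, ∃ r, Rip a o (val (ring n m) x0 I (n - 1) (0, t)) r)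
    (h2 : ∀ l, 1 ≤ l → l < n → ∀ t' : ZMod m, ¬ ∀ t : ZMod m, ∃ r, Rip a o (val (ring n m) x0 I (n - l) (0, t)) r ∧
      rd o (val (ring n m) x0 I (n - l - 1) (0, t')) r ≤ a) :
    ∃ w t, InR a x0 I o n w t := sorry

/-- B6: the labels of a closing time (a copy of `Helper58.NF.exists_label`, with `InR` replaced in the descent by
'saturated': ripe, and all early times are reached). -/
theorem exists_label (hn : 1 ≤ n) (x0 : Pos n m → B) (I : B → Dir m → B) (hI : CF (ring n m) x0 n I)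
    (o : ℕ → (B × Λ) ⊕ Z) (T T' : ℕ) (hT : ∀ t b, New o b t → cnt o t < T) (hT' : ∀ t b, Rip a o b t → crip a o t < T')
    (hR : ∀ w t, ¬ InR a x0 I o n w t) (c : ℕ → Dir m) (s : ℕ → ℕ) (hc : Chain a x0 I o c s (n - 1)) :
    ∃ (L : Fin (n - 1) → Label n m) (num : Idx L → ℕ), Valid L ∧ Fits L T T' num ∧ Typ a x0 I o L num := sorry

/-- B8: the number of possible announcements, divided by `k` to the number of the secrets. -/
theorem card_fits (L : Fin (n - 1) → Label n m) (T T' k : ℕ) (hk : 0 < k) (x : ℝ) (hx : 0 < x) :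
    (Nat.card {num : Idx L → ℕ // Fits L T T' num} : ℝ) ≤
      Real.exp x * (∏ a, wt ((T : ℝ) / k) ((T' : ℝ) / k) x (L a)) * (k : ℝ) ^ Fintype.card (Idx L) := sorry

/-- B9: the sum over all labels. -/
theorem sum_wt (K K' x : ℝ) : ∑ L : Fin (n - 1) → Label n m, ∏ a, wt K K' x (L a) =
    (4 * m ^ 2 * K / x + 2 * m ^ 2 * n * K' ^ m) ^ (n - 1) := sorry

/-- B10: the closing instances of one state (from B2, nd_inj, nd_row, B8, B9; `x0`, `q` fixed). -/
theorem close_bound [Fintype B] [Fintype F] (H : Hide Λ F (Dir m → B) ρ h) (hah : a + h = Fintype.card Λ)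
    (x0 : Pos n m → B) (P : Prog (B × Λ) F Z σ S) (q : Fin S) (T T' : ℕ) (x : ℝ) (hx : 0 < x) :
    (Nat.card {J : B × Λ → F // CF (ring n m) x0 n (wd H J) ∧ ∃ (L : Fin (n - 1) → Label n m) (num : Idx L → ℕ),
      Valid L ∧ Fits L T T' num ∧ Typ a x0 (wd H J) (obs P J q) L num} : ℝ) ≤
      Real.exp x * (4 * m ^ 2 * ((T : ℝ) / Fintype.card B) / x +
        2 * m ^ 2 * n * ((T' : ℝ) / Fintype.card B) ^ m) ^ (n - 1) * Nat.card (B × Λ → F) := sorry

/-- B11a: at most `T / (a + 1)` blocks get ripe. -/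
theorem crip_lt {B Λ F Z : Type} [Finite B] [Fintype Λ] {σ S a : ℕ} (P : Prog (B × Λ) F Z σ S) (J : B × Λ → F) (q : Fin S) (T : ℕ)
    (hT : Nat.card {b // P.Asks J q b} ≤ T) (τ t : ℕ) (b : B) (hr : Rip a (fun j => obs P J q (j + τ)) b t) :
    crip a (fun j => obs P J q (j + τ)) t < T / (a + 1) := sorry

/-- B11b: the time `0` events: all letters of the node `(l, 0)` get ripe when the letter `t'` of its neighbour below is
not ripe. -/
theorem bad_bound [Fintype B] [Fintype F] (H : Hide Λ F (Dir m → B) ρ h) (hah : a + h = Fintype.card Λ)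
    (x0 : Pos n m → B) (P : Prog (B × Λ) F Z σ S) (q : Fin S) (T : ℕ) (l : ℕ) (hl : 1 ≤ l) (hln : l < n)
    (t' : ZMod m) :
    Nat.card {J : B × Λ → F // CF (ring n m) x0 n (wd H J) ∧ Nat.card {b // P.Asks J q b} ≤ T ∧
      ∀ t : ZMod m, ∃ r, Rip a (obs P J q) (val (ring n m) x0 (wd H J) (n - l) (0, t)) r ∧
        rd (obs P J q) (val (ring n m) x0 (wd H J) (n - l - 1) (0, t')) r ≤ a} * Fintype.card B ^ m ≤
      (T / (a + 1)) ^ m * Nat.card (B × Λ → F) := sorry

/-- B11: the whole bound. The pairs `(i, J)` such that the computation from the initial state number `i` on `J` ends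
with the right output and with the index `i` and queries at most `T` symbols. -/
theorem main_bound {Y : Type} [Fintype B] [Fintype F] (hn : 1 ≤ n) (H : Hide Λ F (Dir m → B) ρ h)
    (hah : a + h = Fintype.card Λ) (x0 : Pos n m → B) (h0 : Function.Injective x0)
    (P : Prog (B × Λ) F (Y × Fin σ) σ S) (φ : B → Y) (p T : ℕ) (hφ : ∀ y, Nat.card {b // φ b = y} ≤ p) (x : ℝ)
    (hx : 0 < x) :
    (Nat.card {s : Fin σ × (B × Λ → F) // P.Outputs s.2 (P.start s.1) (φ (out x0 (wd H s.2)), s.1) ∧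
        Nat.card {b // P.Asks s.2 (P.start s.1) b} ≤ T} : ℝ) ≤
      (σ * (((n * (n + 1) * m) ^ 2 + p) / Fintype.card B +
          n * m * (((T / (a + 1) : ℕ) : ℝ) / Fintype.card B) ^ m) +
        S * (Real.exp x * (4 * m ^ 2 * ((T : ℝ) / Fintype.card B) / x +
          2 * m ^ 2 * n * (((T / (a + 1) : ℕ) : ℝ) / Fintype.card B) ^ m) ^ (n - 1))) *
        Nat.card (B × Λ → F) := sorry

end ring

section code

/-- B12: the code is onto. -/
theorem code_onto {F K : Type} [Field F] [Fintype F] [Field K] [Fintype K] [Algebra F K] (r : ℕ) (hr : 1 ≤ r)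
    (hrK : r ≤ Fintype.card K) (X : Finset (K × K))
    (hX : (r - 1) * Fintype.card K + (Fintype.card K - (r - 1)) * (Fintype.card K / Fintype.card F) < X.card)
    (v : Fin r → K) :
    ∃ y : K × K → F, (∀ p, p ∉ X → y p = 0) ∧ ∀ i : Fin r, ∑ p, y p • (p.2 * p.1 ^ (i : ℕ)) = v i := sorry

/-- B13: the words of the blocks are hidden. -/
theorem exists_hide {F K D : Type} [Field F] [Fintype F] [Field K] [Fintype K] [Algebra F K] [Fintype D] (e : ℕ)
    (he : 1 ≤ e) (num : D → ℕ) (hnum : Function.Injective num) (hlt : ∀ c, num c < Fintype.card D) [Nonempty D]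
    (hrK : e * Fintype.card D ≤ Fintype.card K) (h : ℕ) (hcard : h ≤ Fintype.card K ^ 2)
    (hh : (e * Fintype.card D - 1) * Fintype.card K +
      (Fintype.card K - (e * Fintype.card D - 1)) * (Fintype.card K / Fintype.card F) < h) :
    ∃ (ρ : ℕ) (H : Hide (K × K) F (D → Fin e → K) ρ h), H.dec = word e num := sorry

end code

section programs

variable {n m : ℕ} [NeZero m] {B Λ F : Type} [AddCommGroup B] [Fintype B] [Fintype Λ] [Nonempty Λ]

/-- B14: the pushdown program (`Helper96.NF`, but the state with the argument has also the place `l` of the next symbol,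
and the summands `α c l (symbol)` are added to the sum one by one). Exponents may be larger. -/
theorem pushdown_program (hn : 1 ≤ n) (x0 : Pos n m → B) (α : Dir m → Λ → F → B)
    (hB : n * (n + 1) * m ≤ Fintype.card B) (hB2 : 2 ≤ Fintype.card B) (hΛ : Fintype.card Λ ≤ Fintype.card B) :
    ∃ (Q Γ : Type) (_ : Finite Q) (_ : Finite Γ) (P : PProg (B × Λ) F B Q Γ),
      Nat.card Q ≤ (2 * Fintype.card B) ^ 5 ∧ Nat.card Γ ≤ (2 * Fintype.card B) ^ 4 ∧
      ∀ J : B × Λ → F, P.Outputs J (out x0 fun b c => ∑ l, α c l (J (b, l))) ∧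
        Nat.card {b // P.Asks J b} ≤ n * (n + 1) * m * Fintype.card Λ := sorry

/-- B15: the program without store (`Helper70.NF.Up`). Exponents may be larger. -/
theorem det_program (hn : 1 ≤ n) (x0 : Pos n m → B) (α : Dir m → Λ → F → B)
    (hB : n * (n + 1) * m ≤ Fintype.card B) (hB2 : 2 ≤ Fintype.card B) (hΛ : Fintype.card Λ ≤ Fintype.card B) :
    ∃ (S : ℕ) (P : Prog (B × Λ) F B 1 S), S ≤ (2 * Fintype.card B) ^ (5 * n) ∧
      ∀ J : B × Λ → F, P.Outputs J (P.start 0) (out x0 fun b c => ∑ l, α c l (J (b, l))) ∧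
        Nat.card {b // P.Asks J (P.start 0) b} ≤ n * (n + 1) * m * Fintype.card Λ := sorry

end programs

section numbers

/-- B16a: the numbers (`Helper4.NF.numbers_real`, with `K ≤ Q ^ 2` symbols per block and the part `K'` of ripe
blocks). -/
theorem numbers_real (n m Q : ℕ) (s K K' : ℝ) (hs0 : 0 ≤ s) (hm : 1 ≤ m) (hQ : 1 ≤ Q) (hK0 : 0 ≤ K) (hK : K ≤ Q ^ 2)
    (hK0' : 0 ≤ K') (hK' : K' ≤ 1 - 2 * Real.log n / m) (hm2 : (6 * (m * Q) ^ 2 : ℝ) ≤ Real.sqrt n)
    (hS : s ≤ (n : ℝ) ^ ((n : ℝ) / 3)) :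
    n * m * K' ^ m + s * (Real.exp n * (4 * m ^ 2 * K / n + 2 * m ^ 2 * n * K' ^ m) ^ (n - 1)) ≤ 1 / 200 := sorry

/-- B16b: the part of the ripe blocks. -/
theorem ripe_part (q Q r k T : ℕ) (δ : ℝ) (hq : 2 ≤ q) (hqQ : q ∣ Q) (hQ : 1 ≤ Q) (hr : 1 ≤ r) (hk : 1 ≤ k)
    (hδ : 0 < δ) (hr2 : (2 * r : ℝ) ≤ δ * Q) (hT : (T : ℝ) ≤ (1 - 1 / q - δ) * (k * Q ^ 2)) :
    ((T / ((Q - (r - 1)) * (Q - Q / q)) : ℕ) : ℝ) / k ≤ 1 - δ / 2 := sorry

/-- B16c: the parameters: for all large `n` there are a number of letters `m`, a field of `Q = p ^ s` elements and a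
dimension `e` with everything that is needed; `k = Q ^ e` is between `n ^ 5` and `n ^ 6`. -/
theorem parameters (p : ℕ) (hp : p.Prime) (δ : ℝ) (hδ : 0 < δ) : ∃ n0 : ℕ, ∀ n ≥ n0, ∃ m s e : ℕ,
    1 ≤ m ∧ 1 ≤ s ∧ 1 ≤ e ∧ 2 * Real.log n / m ≤ δ / 2 ∧ (2 * (e * (2 * m) : ℕ) : ℝ) ≤ δ * (p ^ s : ℕ) ∧
      (6 * (m * (p ^ s : ℕ)) ^ 2 : ℝ) ≤ Real.sqrt n ∧ n ^ 5 ≤ (p ^ s) ^ e ∧ (p ^ s) ^ e ≤ n ^ 6 := sorry

end numbers

end Pool.Agent.Helper27.NB.Frame
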