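import Pool.Agent.Helper27.NB.Frame
import Pool.Agent.Helper27.NB.Cand

/-!
# Frame (only for the work, not for the graded result): the final steps
-/

set_option autoImplicit false

namespace Pool.Agent.Helper27.NB.Frame

open Pool.Agent.Helper19.NF (Prog obs val ring out CF Pos Dir pos Label Idx Valid lev pst slt PProg)
open Pool.Agent.Helper27.NB Pool.Agent.Helper27.NB.Cand

variable {F K : Type} [Field F] [Fintype F] [Field K] [Fintype K] [Algebra F K] {n m e σ S : ℕ} [NeZero m]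

/-- B18a: the general bound with the word written out (from B13 with `num`, B11). -/
theorem bound_word {Y : Type} (hn : 1 ≤ n) (he : 1 ≤ e) (hQ : 2 * m * e ≤ Fintype.card K) (x : ℝ) (hx : 0 < x)
    (x0 : ZMod (n + 1) × ZMod m → Fin e → K) (h0 : Function.Injective x0) (φ : (Fin e → K) → Y) (p T : ℕ)
    (hφ : ∀ y, Nat.card {b // φ b = y} ≤ p) (P : Prog ((Fin e → K) × (K × K)) F (Y × Fin σ) σ S) :
    (Nat.card {s : Fin σ × ((Fin e → K) × (K × K) → F) //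
          P.Outputs s.2 (P.start s.1) (φ (out x0 (table s.2)), s.1) ∧
          Nat.card {b // P.Asks s.2 (P.start s.1) b} ≤ T} : ℝ) ≤
        (σ * (((n * (n + 1) * m) ^ 2 + p) / (Fintype.card K : ℝ) ^ e + n * m *
            (((T / ((Fintype.card K - (2 * m * e - 1)) * (Fintype.card K - Fintype.card K / Fintype.card F)) : ℕ) : ℝ) /
              (Fintype.card K : ℝ) ^ e) ^ m) +
          S * (Real.exp x * (4 * m ^ 2 * ((T : ℝ) / (Fintype.card K : ℝ) ^ e) / x + 2 * m ^ 2 * n *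
            (((T / ((Fintype.card K - (2 * m * e - 1)) * (Fintype.card K - Fintype.card K / Fintype.card F)) : ℕ) : ℝ) /
              (Fintype.card K : ℝ) ^ e) ^ m) ^ (n - 1))) * Nat.card ((Fin e → K) × (K × K) → F) := sorry

/-- B18b: the bound in numbers (from B18a, B16a, B16b; as `Helper19.NF.head`). `k = Q ^ e`. -/
theorem head {Y : Type} (he : 1 ≤ e) (δ : ℝ) (hδ : 0 < δ) (hlog : 2 * Real.log n / m ≤ δ / 2)
    (hQ : (2 * (2 * m * e : ℕ) : ℝ) ≤ δ * Fintype.card K) (hQ' : 2 * m * e ≤ Fintype.card K)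
    (hm2 : (6 * (m * Fintype.card K) ^ 2 : ℝ) ≤ Real.sqrt n) (hk : n ^ 5 ≤ Fintype.card K ^ e)
    (x0 : ZMod (n + 1) × ZMod m → Fin e → K) (h0 : Function.Injective x0) (φ : (Fin e → K) → Y) (p T : ℕ)
    (hφ : ∀ y, Nat.card {b // φ b = y} ≤ p)
    (hT : (T : ℝ) ≤ (1 - 1 / Fintype.card F - δ) * (Fintype.card K ^ e * Fintype.card K ^ 2))
    (hS : (S : ℝ) ≤ σ * (n : ℝ) ^ ((n : ℝ) / 3)) (P : Prog ((Fin e → K) × (K × K)) F (Y × Fin σ) σ S) :
    (Nat.card {s : Fin σ × ((Fin e → K) × (K × K) → F) //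
        P.Outputs s.2 (P.start s.1) (φ (out x0 (table s.2)), s.1) ∧
        Nat.card {b // P.Asks s.2 (P.start s.1) b} ≤ T} : ℝ) ≤
      (p / (Fintype.card K : ℝ) ^ e + 1 / 50) * Nat.card (Fin σ × ((Fin e → K) × (K × K) → F)) := sorry

/-- B18c: the same for pushdown programs (from `Helper98.NB.push_head`, B13, B16b). -/
theorem push_head {Y Q Γ : Type} [Finite Q] [Finite Γ] (he : 1 ≤ e) (δ : ℝ) (hδ : 0 < δ)
    (hlog : 2 * Real.log n / m ≤ δ / 2)
    (hQ : (2 * (2 * m * e : ℕ) : ℝ) ≤ δ * Fintype.card K) (hQ' : 2 * m * e ≤ Fintype.card K)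
    (hm2 : (6 * (m * Fintype.card K) ^ 2 : ℝ) ≤ Real.sqrt n) (hk : n ^ 5 ≤ Fintype.card K ^ e)
    (x0 : ZMod (n + 1) × ZMod m → Fin e → K) (h0 : Function.Injective x0) (φ : (Fin e → K) → Y) (p T w : ℕ)
    (hφ : ∀ y, Nat.card {b // φ b = y} ≤ p)
    (hT : (T : ℝ) ≤ (1 - 1 / Fintype.card F - δ) * (Fintype.card K ^ e * Fintype.card K ^ 2))
    (hw : (16 * w ^ 2 : ℝ) ≤ n * Real.log n) (hcQ : Nat.card Q ≤ 2 ^ w) (hcΓ : Nat.card Γ ≤ 2 ^ w)
    (P : PProg ((Fin e → K) × (K × K)) F Y Q Γ) :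
    (Nat.card {J : (Fin e → K) × (K × K) → F // (∃ j ≤ 2 ^ w, P.act (P.conf J j).1 = .out (φ (out x0 (table J)))) ∧
        Nat.card {b // P.Asks J b} ≤ T} : ℝ) ≤
      (p / (Fintype.card K : ℝ) ^ e + 1 / 50) * Nat.card ((Fin e → K) × (K × K) → F) := sorry

omit [Fintype F] in
/-- B19: (C), all symbols may be read (from `Helper60.NB.read_symbols`). -/
theorem all_symbols : ∃ C : ℕ, ∀ (F K : Type) (_ : Field F) (_ : Field K) (_ : Fintype K) (_ : Algebra F K)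
    (n m e : ℕ) (_ : NeZero m) (x0 : ZMod (n + 1) × ZMod m → Fin e → K), 1000 ≤ n → n ^ 5 ≤ Fintype.card K ^ e →
    Fintype.card K ^ e ≤ n ^ 6 → Fintype.card K ^ 2 ≤ n → (m : ℝ) ≤ Real.log n ^ 2 →
    ∃ (S : ℕ) (P : Prog ((Fin e → K) × (K × K)) F (Fin e → K) 1 S), (S : ℝ) ≤ Real.log n ^ (C * n) ∧
        ∀ J, P.Outputs J (P.start 0) (out x0 (table J)) := sorry

end Pool.Agent.Helper27.NB.Frame
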