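import Pool.Agent.Helper27.NB.Defs
import Pool.Agent.Helper19.NF.Union

/-!
# The number of ripe blocks
-/

set_option autoImplicit false

namespace Pool.Agent.Helper27.NB

open Pool.Agent.Helper6.IP (cnt)
open Pool.Agent.Helper19.NF

variable {Λ F Z B : Type} {σ S a : ℕ}

theorem rd_le_succ [Finite Λ] (o : ℕ → (B × Λ) ⊕ Z) (b : B) (t : ℕ) : rd o b t ≤ rd o b (t + 1) := by
  refine Set.ncard_le_ncard (fun l hl => ?_) (Set.toFinite _)
  obtain ⟨j, hj, h⟩ := hl
  exact ⟨j, by omega, h⟩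

/-- A new symbol increases the number of the symbols. -/
theorem rd_new [Finite Λ] {o : ℕ → (B × Λ) ⊕ Z} {b : B} {t : ℕ} (h : New o b t) : rd o b t < rd o b (t + 1) := by
  obtain ⟨l, hl, hl'⟩ := h
  refine Set.ncard_lt_ncard ⟨fun l' h' => ?_, fun hsub => ?_⟩ (Set.toFinite _)
  · obtain ⟨j, hj, h⟩ := h'
    exact ⟨j, by omega, h⟩
  · obtain ⟨j, hj, h⟩ := hsub ⟨t, by omega, hl⟩
    exact hl' j hj h

/-- B11a: at most `T / (a + 1)` blocks get ripe. -/
theorem crip_lt [Finite B] [Finite Λ] (P : Prog (B × Λ) F Z σ S) (J : B × Λ → F) (q : Fin S) (T : ℕ)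
    (hT : Nat.card {b // P.Asks J q b} ≤ T) (τ t : ℕ) (b : B) (hr : Rip a (fun j => obs P J q (j + τ)) b t) :
    crip a (fun j => obs P J q (j + τ)) t < T / (a + 1) := by
  classical
  set o : ℕ → (B × Λ) ⊕ Z := fun j => obs P J q (j + τ) with ho
  have : Fintype B := Fintype.ofFinite B
  rw [Nat.lt_iff_add_one_le, Nat.le_div_iff_mul_le (by omega)]
  set R : Set B := {b : B | a + 1 ≤ rd o b t} with hR
  have hb : b ∉ R := by
    rw [hR, Set.mem_ofPred_eq, hr.2]
    omega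
  have h1 : (insert b R).ncard = crip a o t + 1 := Set.ncard_insert_of_notMem hb (Set.toFinite _)
  rw [← h1]
  let X : B → Set Λ := fun b' => {l : Λ | ∃ j < t + 1, o j = Sum.inl (b', l)}
  have h2 : ∀ b' : (insert b R : Set B), a + 1 ≤ Nat.card (X b'.1) := by
    rintro ⟨b', hb'⟩
    change a + 1 ≤ rd o b' (t + 1)
    rcases hb' with rfl | hb'
    · have := rd_new hr.1
      rw [hr.2] at this
      omega
    · exact le_trans hb' (rd_le_succ o b' t)
  have h3 : (insert b R).ncard * (a + 1) ≤ Nat.card (Σ b' : (insert b R : Set B), X b'.1) := by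
    have : Fintype (insert b R : Set B) := Fintype.ofFinite _
    rw [Nat.card_sigma]
    calc (insert b R).ncard * (a + 1) = ∑ _b' : (insert b R : Set B), (a + 1) := by
          rw [Finset.sum_const, Finset.card_univ, smul_eq_mul, ← Nat.card_eq_fintype_card, Nat.card_coe_set_eq]
      _ ≤ _ := Finset.sum_le_sum fun b' _ => h2 b'
  refine h3.trans (le_trans ?_ hT)
  refine Nat.card_le_card_of_injective (fun y => (⟨(y.1.1, y.2.1), ?_⟩ : {b // P.Asks J q b})) ?_
  · obtain ⟨j, -, hj⟩ := y.2.2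
    exact (asks_iff P J q _).2 ⟨j + τ, hj⟩
  · rintro ⟨⟨b1, h1⟩, l1, h2⟩ ⟨⟨b2, h3⟩, l2, h4⟩ h
    simp only [Subtype.mk.injEq, Prod.mk.injEq] at h
    obtain ⟨rfl, rfl⟩ := h
    rfl

end Pool.Agent.Helper27.NB
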